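import Pool.Agent.J4H22.GE.Axb

/-!
# Project GE: job AXA
-/

set_option autoImplicit false

open MvPolynomial NumberField

namespace Pool.Agent.J4H22.GE

open Pool.Agent.J4H27.GC Pool.Agent.J4H27.GE Pool.Agent.J4H52.GC

section

variable {K : Type} [Field K] [NumberField K]

/-- the factor of the block `i` -/
noncomputable def fac (a b : Fin 2 → 𝓞 K) (k D : ℕ) (r : Bool) (α : ℕ) (κ : ℕ × Bool)
    (n0 n1 : ℕ) : MvPolynomial (Fin 2) (𝓞 K) :=
  ((n0.choose α : ℕ) : MvPolynomial (Fin 2) (𝓞 K)) * X 0 ^ (4 ^ k * n0) * mm a b r 1 k D n1 κ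

theorem GA_eq (a b : Fin 2 → 𝓞 K) {m : ℕ} (D k : Fin m → ℕ)
    (F : NN D → MvPolynomial (Fin 2) (𝓞 K)) (r : Fin m → Bool) (α : Fin m → ℕ)
    (κ : Fin m → ℕ × Bool) :
    GA a b D k F r α κ = ∑ n : NN D, F n * ∏ i, fac a b (k i) (D i) (r i) (α i) (κ i)
      (n i 0) (n i 1) := by
  rw [sum_pairs]
  unfold GA GB
  refine Finset.sum_congr rfl fun n0 _ => ?_
  rw [Finset.mul_sum]
  refine Finset.sum_congr rfl fun n1 _ => ?_
  have h : ∏ i, fac a b (k i) (D i) (r i) (α i) (κ i)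
      (((fun i => ![n0 i, n1 i]) : NN D) i 0) (((fun i => ![n0 i, n1 i]) : NN D) i 1) =
      (∏ i, ((((n0 i : ℕ).choose (α i) : ℕ) : MvPolynomial (Fin 2) (𝓞 K)) *
        X 0 ^ (4 ^ k i * (n0 i : ℕ)))) * ∏ i, mm a b (r i) 1 (k i) (D i) (n1 i) (κ i) := by
    rw [← Finset.prod_mul_distrib]
    rfl
  rw [h]
  ring

/-- Fubini: the block `i` and the other blocks -/
theorem GA_eq_zero_of (a b : Fin 2 → 𝓞 K) {m : ℕ} (D k : Fin m → ℕ)
    (F : NN D → MvPolynomial (Fin 2) (𝓞 K)) (r : Fin m → Bool) (α : Fin m → ℕ)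
    (κ : Fin m → ℕ × Bool) (i : Fin m)
    [∀ n' n'' : ((i' : {i' // i' ≠ i}) → Fin 2 → Fin (D i'.1 + 1)), Decidable (n' = n'')]
    (h : ∀ n' : (i' : {i' // i' ≠ i}) → Fin 2 → Fin (D i'.1 + 1),
      ∑ n : NN D, F n * (if (fun i' : {i' // i' ≠ i} => n i'.1) = n' then
        fac a b (k i) (D i) (r i) (α i) (κ i) (n i 0) (n i 1) else 0) = 0) :
    GA a b D k F r α κ = 0 := by
  classical
  rw [GA_eq]
  have h1 : ∀ n : NN D, F n * ∏ i, fac a b (k i) (D i) (r i) (α i) (κ i) (n i 0) (n i 1) =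
      ∑ n' : (i' : {i' // i' ≠ i}) → Fin 2 → Fin (D i'.1 + 1),
        (∏ i' : {i' // i' ≠ i}, fac a b (k i') (D i') (r i') (α i') (κ i') (n' i' 0) (n' i' 1)) *
        (F n * (if (fun i' : {i' // i' ≠ i} => n i'.1) = n' then
          fac a b (k i) (D i) (r i) (α i) (κ i) (n i 0) (n i 1) else 0)) := by
    intro n
    rw [Finset.sum_eq_single (fun i' : {i' // i' ≠ i} => n i'.1)]
    · rw [if_pos rfl, Fintype.prod_eq_mul_prod_subtype_ne _ i]
      ring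
    · intro n' _ hn'
      rw [if_neg (Ne.symm hn'), mul_zero, mul_zero]
    · intro h
      exact absurd (Finset.mem_univ _) h
  rw [Finset.sum_congr rfl (fun n _ => h1 n), Finset.sum_comm]
  refine Finset.sum_eq_zero (fun n' _ => ?_)
  rw [← Finset.mul_sum, h n', mul_zero]

end

/-- the index set of the equations -/
abbrev EqA {m : ℕ} (D T : Fin m → ℕ) : Type :=
  Σ i : Fin m, Bool × Fin (T i) × Fin (T i) × Bool ×
    ((i' : {i' // i' ≠ i}) → Fin 2 → Fin (D i'.1 + 1))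

theorem card_le {m : ℕ} (hm : 1 ≤ m) (D T : Fin m → ℕ) (d : ℕ) (hd : 1 ≤ d)
    (hT : ∀ i, 512 * m * (T i) ^ 2 ≤ D i ^ 2) :
    2 * (Fintype.card (EqA D T) * (d + 2 * d + 1) ^ 2) ≤ Fintype.card (NN D) * (d + 1) ^ 2 := by
  classical
  have h1 : ∀ i : Fin m, m * (2 * ((2 * ((T i) * ((T i) * (2 * ((∏ i' : {i' // i' ≠ i},
      (D i'.1 + 1) ^ 2)))))) * (d + 2 * d + 1) ^ 2)) ≤
      Fintype.card (NN D) * (d + 1) ^ 2 := by
    intro i
    have h2 : Fintype.card (NN D) =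
        (D i + 1) ^ 2 * (∏ i' : {i' // i' ≠ i}, (D i'.1 + 1) ^ 2) := by
      rw [card_NN, ← Finset.prod_pow, Fintype.prod_eq_mul_prod_subtype_ne
        (fun i => (D i + 1) ^ 2) i]
    rw [h2]
    have h4 : (d + 2 * d + 1) ^ 2 ≤ 16 * (d + 1) ^ 2 := by
      have : d + 2 * d + 1 ≤ 4 * (d + 1) := by omega
      calc (d + 2 * d + 1) ^ 2 ≤ (4 * (d + 1)) ^ 2 := Nat.pow_le_pow_left this 2
        _ = 16 * (d + 1) ^ 2 := by ring
    have h5 : D i ^ 2 ≤ (D i + 1) ^ 2 := Nat.pow_le_pow_left (Nat.le_succ _) 2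
    calc m * (2 * ((2 * ((T i) * ((T i) * (2 * ((∏ i' : {i' // i' ≠ i},
          (D i'.1 + 1) ^ 2)))))) * (d + 2 * d + 1) ^ 2))
        = (8 * m * (T i) ^ 2 * (d + 2 * d + 1) ^ 2) *
            ∏ i' : {i' // i' ≠ i}, (D i'.1 + 1) ^ 2 := by ring
      _ ≤ (8 * m * (T i) ^ 2 * (16 * (d + 1) ^ 2)) *
            ∏ i' : {i' // i' ≠ i}, (D i'.1 + 1) ^ 2 := by gcongr
      _ = (128 * m * (T i) ^ 2) * (d + 1) ^ 2 *
            ∏ i' : {i' // i' ≠ i}, (D i'.1 + 1) ^ 2 := by ring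
      _ ≤ (512 * m * (T i) ^ 2) * (d + 1) ^ 2 *
            ∏ i' : {i' // i' ≠ i}, (D i'.1 + 1) ^ 2 := by gcongr; norm_num
      _ ≤ D i ^ 2 * (d + 1) ^ 2 * ∏ i' : {i' // i' ≠ i}, (D i'.1 + 1) ^ 2 := by
          gcongr
          exact hT i
      _ ≤ (D i + 1) ^ 2 * (d + 1) ^ 2 * ∏ i' : {i' // i' ≠ i}, (D i'.1 + 1) ^ 2 := by gcongr
      _ = _ := by ring
  have h6 : Fintype.card (EqA D T) = ∑ i : Fin m, (2 * ((T i) * ((T i) *
      (2 * ((∏ i' : {i' // i' ≠ i}, (D i'.1 + 1) ^ 2)))))) := by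
    simp [EqA, Fintype.card_pi, Fintype.card_sigma]
  have h7 : m * (2 * (Fintype.card (EqA D T) * (d + 2 * d + 1) ^ 2)) ≤
      m * (Fintype.card (NN D) * (d + 1) ^ 2) := by
    rw [h6, Finset.sum_mul, Finset.mul_sum, Finset.mul_sum]
    refine (Finset.sum_le_sum (fun i _ => h1 i)).trans (le_of_eq ?_)
    simp
  exact Nat.le_of_mul_le_mul_left h7 hm

theorem t_AXA (hM : S_MMF) : S_AXA := by
  classical
  intro K _ _ a b m hm
  obtain ⟨C, hC, hMM⟩ := hM K a b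
  obtain ⟨c, hc, hS⟩ := gen K
  have hC0 : (0 : ℝ) ≤ C := by linarith
  have hc0 : (0 : ℝ) ≤ c := by linarith
  refine ⟨4 * c ^ 2 * (2 ^ (2 * m) * 4) * 2 * C, ?_, ?_⟩
  · calc (1 : ℝ) = 1 * 1 * (1 * 1) * 1 * 1 := by ring
      _ ≤ 4 * c ^ 2 * (2 ^ (2 * m) * 4) * 2 * C := by
        gcongr
        · norm_num
        · exact one_le_pow₀ hc
        · exact one_le_pow₀ (by norm_num)
        · norm_num
        · norm_num
  intro D k T d hd hD hk hT
  let P : EqA D T → NN D → MvPolynomial (Fin 2) (𝓞 K) := fun t n =>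
    if (fun i' : {i' // i' ≠ t.1} => n i'.1) = t.2.2.2.2.2 then
      fac a b (k t.1) (D t.1) t.2.1 (t.2.2.2.1 : ℕ) (2 * D t.1 - (t.2.2.1 : ℕ), t.2.2.2.2.1)
        (n t.1 0) (n t.1 1) else 0
  have hfac : ∀ (i : Fin m) (ρ : Bool) (α : ℕ) (κ : ℕ × Bool) (n0 n1 : ℕ) (j : Fin 2),
      n0 ≤ D i → n1 ≤ D i → (fac a b (k i) (D i) ρ α κ n0 n1).degreeOf j ≤ 2 * d ∧
        len (fac a b (k i) (D i) ρ α κ n0 n1) ≤ 2 ^ d * C ^ d := by
    intro i ρ α κ n0 n1 j h0 h1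
    have hkk : 4 ^ k i * D i = d := by rw [mul_comm, hk i]
    have hmm := hMM ρ 1 (k i) (D i) n1 κ h1
    rw [hkk] at hmm
    have hn : 4 ^ k i * n0 ≤ d := by
      rw [← hkk]
      gcongr
    have hcast : ((n0.choose α : ℕ) : MvPolynomial (Fin 2) (𝓞 K)) =
        MvPolynomial.C ((n0.choose α : ℕ) : 𝓞 K) := by simp
    unfold fac
    constructor
    · have hX : (X 0 ^ (4 ^ k i * n0) : MvPolynomial (Fin 2) (𝓞 K)).degreeOf j ≤
          if j = 0 then d else 0 := by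
        split_ifs with hj
        · rw [hj, degreeOf_X_self_pow]
          exact hn
        · rw [degreeOf_X_pow_of_ne _ hj]
      have hm1 : (mm a b ρ 1 (k i) (D i) n1 κ).degreeOf j ≤ if j = 1 then 2 * d else 0 := by
        rw [degreeOf_le_iff]
        intro s hs
        exact hmm.2.1 s hs j
      refine (degreeOf_mul_le _ _ _).trans ?_
      have h3 : (((n0.choose α : ℕ) : MvPolynomial (Fin 2) (𝓞 K)) *
          X 0 ^ (4 ^ k i * n0)).degreeOf j ≤ if j = 0 then d else 0 := by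
        refine (degreeOf_mul_le _ _ _).trans ?_
        rw [hcast, degreeOf_C, zero_add]
        exact hX
      fin_cases j
      · simp only [Fin.zero_eta, Fin.isValue, if_true, zero_ne_one, if_false] at h3 hm1 ⊢
        omega
      · simp only [Fin.mk_one, Fin.isValue, if_true, one_ne_zero, if_false] at h3 hm1 ⊢
        omega
    · refine (len_mul _ _).trans (mul_le_mul ?_ hmm.2.2 (len_nonneg _) (by positivity))
      refine (len_mul _ _).trans ?_
      rw [hcast, len_C, hs_nat]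
      have hlX : len (X 0 ^ (4 ^ k i * n0) : MvPolynomial (Fin 2) (𝓞 K)) ≤ 1 := by
        refine (len_pow _ _).trans ?_
        rw [len_X, one_pow]
      have hch : ((n0.choose α : ℕ) : ℝ) ≤ 2 ^ d := by
        have h4 : n0.choose α ≤ 2 ^ d := (Nat.choose_le_two_pow n0 α).trans
          (Nat.pow_le_pow_right (by norm_num) (h0.trans (D_le hk i)))
        exact_mod_cast h4
      calc ((n0.choose α : ℕ) : ℝ) * len (X 0 ^ (4 ^ k i * n0) : MvPolynomial (Fin 2) (𝓞 K)) ≤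
            2 ^ d * 1 := by
              refine mul_le_mul hch hlX (len_nonneg _) (by positivity)
        _ = 2 ^ d := mul_one _
  have hPdeg : ∀ q n j, (P q n).degreeOf j ≤ 2 * d := by
    intro q n j
    simp only [P]
    split_ifs
    · exact (hfac _ _ _ _ _ _ j (Fin.is_le _) (Fin.is_le _)).1
    · simp
  have hPlen : ∀ q n, len (P q n) ≤ 2 ^ d * C ^ d := by
    intro q n
    simp only [P]
    split_ifs
    · exact (hfac _ _ _ _ _ _ 0 (Fin.is_le _) (Fin.is_le _)).2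
    · rw [len_zero]
      positivity
  have hΛ : (1 : ℝ) ≤ 2 ^ d * C ^ d := by
    calc (1 : ℝ) = 1 * 1 := by ring
      _ ≤ 2 ^ d * C ^ d := by
        gcongr
        · exact one_le_pow₀ (by norm_num)
        · exact one_le_pow₀ hC
  obtain ⟨F, hF0, hFdeg, hFlen, hF⟩ := hS (NN D) (EqA D T) d (2 * d) P _ hΛ hPdeg hPlen
    (card_le hm D T d hd hT)
  refine ⟨F, hF0, hFdeg, ?_, ?_⟩
  · intro n
    refine (hFlen n).trans ?_
    have hA := prod_succ_le hk
    have h7 : (Fintype.card (NN D) : ℝ) ≤ (2 ^ (2 * m)) ^ d := by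
      rw [card_NN, Nat.cast_pow]
      calc ((∏ i, (D i + 1) : ℕ) : ℝ) ^ 2 ≤ ((2 ^ m) ^ d) ^ 2 := by gcongr
        _ = (2 ^ (2 * m)) ^ d := by
          rw [← pow_mul, ← pow_mul, ← pow_mul]
          congr 1
          ring
    have h8 : ((d : ℝ) + 1) ^ 2 ≤ 4 ^ d := by
      calc ((d : ℝ) + 1) ^ 2 ≤ (2 ^ d) ^ 2 := by
            gcongr
            exact succ_le_two_pow le_rfl
        _ = 4 ^ d := by
          rw [← pow_mul, mul_comm, pow_mul]
          norm_num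
    have h9 : c ^ 2 ≤ (c ^ 2) ^ d := by
      calc c ^ 2 = (c ^ 2) ^ 1 := (pow_one _).symm
        _ ≤ (c ^ 2) ^ d := pow_le_pow_right₀ (one_le_pow₀ hc) hd
    calc ((d : ℝ) + 1) ^ 2 * (c * (c * ((Fintype.card (NN D) : ℝ) * ((d : ℝ) + 1) ^ 2) *
          (2 ^ d * C ^ d)))
        ≤ 4 ^ d * (c * (c * ((2 ^ (2 * m)) ^ d * 4 ^ d) * (2 ^ d * C ^ d))) := by gcongr
      _ = 4 ^ d * (c ^ 2) * ((2 ^ (2 * m)) ^ d * 4 ^ d) * 2 ^ d * C ^ d := by ring
      _ ≤ 4 ^ d * (c ^ 2) ^ d * ((2 ^ (2 * m)) ^ d * 4 ^ d) * 2 ^ d * C ^ d := by gcongr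
      _ = (4 * c ^ 2 * (2 ^ (2 * m) * 4) * 2 * C) ^ d := by
          rw [mul_pow, mul_pow, mul_pow, mul_pow, mul_pow]
  · intro r α κ i hi
    apply GA_eq_zero_of a b D k F r α κ i
    intro n'
    by_cases hκ : (κ i).1 ≤ 2 * D i
    · have hu : 2 * D i - (κ i).1 < T i := by omega
      have hα : α i < T i := by omega
      have h := hF ⟨i, r i, ⟨2 * D i - (κ i).1, hu⟩, ⟨α i, hα⟩, (κ i).2, n'⟩
      have hκ' : (2 * D i - (2 * D i - (κ i).1), (κ i).2) = κ i := by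
        ext
        · simp only; omega
        · rfl
      simp only [P] at h
      rw [hκ'] at h
      exact h
    · refine Finset.sum_eq_zero (fun n _ => ?_)
      split_ifs
      · unfold fac
        rw [(hMM (r i) 1 (k i) (D i) (n i 1) (κ i) (Fin.is_le _)).1 (by omega), mul_zero, mul_zero]
      · rw [mul_zero]

end Pool.Agent.J4H22.GE
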