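import Pool.Agent.J4H22.GE.Siegel

/-!
# Project GE: job AXB
-/

set_option autoImplicit false

open MvPolynomial NumberField

namespace Pool.Agent.J4H22.GE

open Pool.Agent.J4H27.GC Pool.Agent.J4H27.GE Pool.Agent.J4H52.GC

theorem degreeOf_mm {K : Type} [Field K] [NumberField K] {a b : Fin 2 → 𝓞 K} {C : ℝ}
    (hMM : ∀ (r : Bool) (j : Fin 2) (k D n : ℕ) (κ : ℕ × Bool), n ≤ D →
      (2 * D < κ.1 → mm a b r j k D n κ = 0) ∧
      (∀ s ∈ (mm a b r j k D n κ).support, ∀ j', s j' ≤ if j' = j then 2 * (4 ^ k * D) else 0) ∧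
      len (mm a b r j k D n κ) ≤ C ^ (4 ^ k * D))
    {k D n d : ℕ} (hk : D * 4 ^ k = d) (hn : n ≤ D) (r : Bool) (κ : ℕ × Bool) (j : Fin 2) :
    (mm a b r 1 k D n κ).degreeOf j ≤ 2 * d ∧ len (mm a b r 1 k D n κ) ≤ C ^ d := by
  have h := hMM r 1 k D n κ hn
  have hkk : 4 ^ k * D = d := by rw [mul_comm, hk]
  rw [hkk] at h
  refine ⟨?_, h.2.2⟩
  rw [degreeOf_le_iff]
  intro s hs
  refine (h.2.1 s hs j).trans ?_
  split_ifs <;> omega

theorem t_AXB (hM : S_MMF) : S_AXB := by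
  classical
  intro K _ _ a b m hm
  obtain ⟨C, hC, hMM⟩ := hM K a b
  obtain ⟨c, hc, hS⟩ := gen K
  have hC0 : (0 : ℝ) ≤ C := by linarith
  have hc0 : (0 : ℝ) ≤ c := by linarith
  obtain ⟨C', hC'⟩ := exists_nat_ge (4 * c ^ 2 * (2 ^ (2 * m) * 4) * 4 ^ m * C ^ m)
  have hC'1 : (1 : ℝ) ≤ C' := by
    refine le_trans ?_ hC'
    calc (1 : ℝ) = 1 * 1 * (1 * 1) * 1 * 1 := by ring
      _ ≤ 4 * c ^ 2 * (2 ^ (2 * m) * 4) * 4 ^ m * C ^ m := by
        gcongr
        · norm_num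
        · exact one_le_pow₀ hc
        · exact one_le_pow₀ (by norm_num)
        · norm_num
        · exact one_le_pow₀ (by norm_num)
        · exact one_le_pow₀ hC
  refine ⟨C', by exact_mod_cast hC'1, ?_⟩
  intro D k d hd hD hk R L hL hR Z hZ
  have hL1 : (1 : ℝ) ≤ ∏ i, L i := by
    calc (1 : ℝ) = ∏ _i : Fin m, (1 : ℝ) := by simp
      _ ≤ ∏ i, L i := Finset.prod_le_prod (fun i _ => zero_le_one) fun i _ => hL i
  have hPD : ∀ i : Fin m, (0 : ℝ) ≤ L i := fun i => by linarith [hL i]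
  -- the coefficients
  let P : ((Fin m → Bool) × N1 D × (Fin m → Bool) × Z) → NN D → MvPolynomial (Fin 2) (𝓞 K) :=
    fun q n => if (fun i => n i 0) = q.2.1 then
      ∑ c ∈ Fintype.piFinset (fun i => Finset.range (2 * D i + 1)),
        MvPolynomial.C (∏ i, R i (c i) ((q.2.2.2 : Fin m → ℕ × ℕ) i).1
          ((q.2.2.2 : Fin m → ℕ × ℕ) i).2) *
          ∏ i, mm a b (q.1 i) 1 (k i) (D i) (n i 1) (c i, q.2.2.1 i) else 0
  have hmd : ∀ i (n : NN D), ((n i 1 : Fin (D i + 1)) : ℕ) ≤ D i := fun i n => Fin.is_le _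
  have hprod : ∀ (r : Fin m → Bool) (n : NN D) (κ : Fin m → ℕ × Bool) (j : Fin 2),
      (∏ i, mm a b (r i) 1 (k i) (D i) (n i 1) (κ i)).degreeOf j ≤ 2 * m * d ∧
      len (∏ i, mm a b (r i) 1 (k i) (D i) (n i 1) (κ i)) ≤ (C ^ m) ^ d := by
    intro r n κ j
    constructor
    · refine (degreeOf_prod_le _ _ _).trans ?_
      refine (Finset.sum_le_sum fun i _ =>
        (degreeOf_mm hMM (hk i) (hmd i n) (r i) (κ i) j).1).trans (le_of_eq ?_)
      rw [Finset.sum_const, Finset.card_univ, Fintype.card_fin, smul_eq_mul]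
      ring
    · refine (len_prod _ _).trans ?_
      calc (∏ i, len (mm a b (r i) 1 (k i) (D i) (n i 1) (κ i))) ≤ ∏ _i : Fin m, C ^ d :=
            Finset.prod_le_prod (fun i _ => len_nonneg _) fun i _ =>
              (degreeOf_mm hMM (hk i) (hmd i n) (r i) (κ i) j).2
        _ = (C ^ m) ^ d := by
            rw [Finset.prod_const, Finset.card_univ, Fintype.card_fin, ← pow_mul, ← pow_mul,
              mul_comm]
  have hPdeg : ∀ q n j, (P q n).degreeOf j ≤ 2 * m * d := by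
    intro q n j
    simp only [P]
    split_ifs
    · refine (degreeOf_sum_le _ _ _).trans (Finset.sup_le fun c _ => ?_)
      refine (degreeOf_mul_le _ _ _).trans ?_
      rw [degreeOf_C, zero_add]
      exact (hprod _ _ _ j).1
    · simp
  have hPlen : ∀ q n, len (P q n) ≤ (4 ^ m) ^ d * (∏ i, L i) * (C ^ m) ^ d := by
    intro q n
    have h0 : (0 : ℝ) ≤ (4 ^ m) ^ d * (∏ i, L i) * (C ^ m) ^ d := by positivity
    simp only [P]
    split_ifs
    · refine (len_sum _ _).trans ?_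
      have h1 : ∀ c ∈ Fintype.piFinset (fun i => Finset.range (2 * D i + 1)),
          len (MvPolynomial.C (∏ i, R i (c i) ((q.2.2.2 : Fin m → ℕ × ℕ) i).1
            ((q.2.2.2 : Fin m → ℕ × ℕ) i).2) *
            ∏ i, mm a b (q.1 i) 1 (k i) (D i) (n i 1) (c i, q.2.2.1 i)) ≤
            (∏ i, L i) * (C ^ m) ^ d := by
        intro c hcm
        rw [Fintype.mem_piFinset] at hcm
        refine (len_mul _ _).trans (mul_le_mul ?_ (hprod _ _ _ 0).2 (len_nonneg _) (by linarith))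
        rw [len_C]
        have hprodhs : ∀ (s : Finset (Fin m)) (f : Fin m → 𝓞 K),
            hs (∏ i ∈ s, f i) ≤ ∏ i ∈ s, hs (f i) := by
          intro s f
          induction s using Finset.induction_on with
          | empty => simp [hs_one]
          | insert i s hi ih =>
            rw [Finset.prod_insert hi, Finset.prod_insert hi]
            exact (hs_mul _ _).trans (mul_le_mul_of_nonneg_left ih (hs_nonneg _))
        refine (hprodhs _ _).trans (Finset.prod_le_prod (fun i _ => hs_nonneg _) fun i _ => ?_)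
        have h2 := hcm i
        rw [Finset.mem_range] at h2
        exact hR i (c i) _ _ (by omega)
      refine (Finset.sum_le_sum h1).trans ?_
      rw [Finset.sum_const, Fintype.card_piFinset, nsmul_eq_mul]
      have h3 : ((∏ i, (Finset.range (2 * D i + 1)).card : ℕ) : ℝ) ≤ (4 ^ m) ^ d := by
        push_cast
        calc (∏ i, ((Finset.range (2 * D i + 1)).card : ℝ)) ≤ ∏ _i : Fin m, (4 : ℝ) ^ d := by
              refine Finset.prod_le_prod (fun i _ => by positivity) fun i _ => ?_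
              rw [Finset.card_range]
              have h4 : (2 * D i + 1 : ℕ) ≤ 4 ^ d := by
                have h5 : D i + 1 ≤ 2 ^ d := by
                  have := Nat.lt_two_pow_self (n := d)
                  have := D_le hk i
                  omega
                calc 2 * D i + 1 ≤ 2 ^ d * 2 ^ d := by nlinarith [Nat.one_le_two_pow (n := d)]
                  _ = 4 ^ d := by rw [← mul_pow]; norm_num
              exact_mod_cast h4
          _ = (4 ^ m) ^ d := by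
              rw [Finset.prod_const, Finset.card_univ, Fintype.card_fin, ← pow_mul, ← pow_mul,
                mul_comm]
      calc ((∏ i, (Finset.range (2 * D i + 1)).card : ℕ) : ℝ) * ((∏ i, L i) * (C ^ m) ^ d) ≤
            (4 ^ m) ^ d * ((∏ i, L i) * (C ^ m) ^ d) := by gcongr
        _ = (4 ^ m) ^ d * (∏ i, L i) * (C ^ m) ^ d := by ring
    · rw [len_zero]
      exact h0
  have hΛ : (1 : ℝ) ≤ (4 ^ m) ^ d * (∏ i, L i) * (C ^ m) ^ d := by
    calc (1 : ℝ) = 1 * 1 * 1 := by ring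
      _ ≤ (4 ^ m) ^ d * (∏ i, L i) * (C ^ m) ^ d := by
        gcongr
        · exact one_le_pow₀ (one_le_pow₀ (by norm_num))
        · exact one_le_pow₀ (one_le_pow₀ hC)
  obtain ⟨F, hF0, hFdeg, hFlen, hF⟩ := hS (NN D) ((Fin m → Bool) × N1 D × (Fin m → Bool) × Z)
    d (2 * m * d) P _ hΛ hPdeg hPlen (by
      have hcard : Fintype.card ((Fin m → Bool) × N1 D × (Fin m → Bool) × Z) =
          4 ^ m * (∏ i, (D i + 1)) * Z.card := by
        rw [Fintype.card_prod, Fintype.card_prod, Fintype.card_prod, card_N1, Fintype.card_coe]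
        simp only [Fintype.card_pi, Fintype.card_bool, Finset.prod_const, Finset.card_univ,
          Fintype.card_fin]
        have : (4 : ℕ) ^ m = 2 ^ m * 2 ^ m := by rw [← mul_pow]; norm_num
        rw [this]
        ring
      rw [hcard, card_NN]
      have h5 : (d + 2 * m * d + 1) ^ 2 ≤ 4 * (m + 1) ^ 2 * (d + 1) ^ 2 := by
        have h6 : d + 2 * m * d + 1 ≤ 2 * (m + 1) * (d + 1) := by nlinarith
        calc (d + 2 * m * d + 1) ^ 2 ≤ (2 * (m + 1) * (d + 1)) ^ 2 := Nat.pow_le_pow_left h6 2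
          _ = 4 * (m + 1) ^ 2 * (d + 1) ^ 2 := by ring
      calc 2 * (4 ^ m * (∏ i, (D i + 1)) * Z.card * (d + 2 * m * d + 1) ^ 2) ≤
            2 * (4 ^ m * (∏ i, (D i + 1)) * Z.card * (4 * (m + 1) ^ 2 * (d + 1) ^ 2)) := by gcongr
        _ = (4 ^ m * (8 * (m + 1) ^ 2) * Z.card) * (∏ i, (D i + 1)) * (d + 1) ^ 2 := by ring
        _ ≤ (∏ i, (D i + 1)) * (∏ i, (D i + 1)) * (d + 1) ^ 2 := by gcongr
        _ = (∏ i, (D i + 1)) ^ 2 * (d + 1) ^ 2 := by ring)
  refine ⟨F, hF0, hFdeg, ?_, ?_⟩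
  · intro n
    refine (hFlen n).trans ?_
    have hA := prod_succ_le hk
    have hA0 : (0 : ℝ) ≤ ((∏ i, (D i + 1) : ℕ) : ℝ) := by positivity
    have h7 : (Fintype.card (NN D) : ℝ) ≤ (2 ^ (2 * m)) ^ d := by
      rw [card_NN, Nat.cast_pow]
      calc ((∏ i, (D i + 1) : ℕ) : ℝ) ^ 2 ≤ ((2 ^ m) ^ d) ^ 2 := by gcongr
        _ = (2 ^ (2 * m)) ^ d := by
          rw [← pow_mul, ← pow_mul, ← pow_mul]
          congr 1
          ring
    have h8 : ((d : ℝ) + 1) ^ 2 ≤ 4 ^ d := by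
      calc ((d : ℝ) + 1) ^ 2 ≤ (2 ^ d) ^ 2 := by
            gcongr
            exact succ_le_two_pow le_rfl
        _ = 4 ^ d := by
          rw [← pow_mul, mul_comm, pow_mul]
          norm_num
    have h9 : c ^ 2 ≤ (c ^ 2) ^ d := by
      calc c ^ 2 = (c ^ 2) ^ 1 := (pow_one _).symm
        _ ≤ (c ^ 2) ^ d := pow_le_pow_right₀ (one_le_pow₀ hc) hd
    have h10 : (C' : ℝ) ^ d * ∏ i, L i ≤ ((C' : ℝ) ^ d * ∏ i, L i) ^ C' := by
      have h11 : (1 : ℝ) ≤ (C' : ℝ) ^ d * ∏ i, L i := by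
        calc (1 : ℝ) = 1 * 1 := by ring
          _ ≤ (C' : ℝ) ^ d * ∏ i, L i := by
            gcongr
            exact one_le_pow₀ hC'1
      calc (C' : ℝ) ^ d * ∏ i, L i = ((C' : ℝ) ^ d * ∏ i, L i) ^ 1 := (pow_one _).symm
        _ ≤ _ := pow_le_pow_right₀ h11 (by exact_mod_cast hC'1)
    refine le_trans ?_ h10
    have hL0 : (0 : ℝ) ≤ ∏ i, L i := by linarith
    calc ((d : ℝ) + 1) ^ 2 * (c * (c * ((Fintype.card (NN D) : ℝ) * ((d : ℝ) + 1) ^ 2) *
          ((4 ^ m) ^ d * (∏ i, L i) * (C ^ m) ^ d)))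
        ≤ 4 ^ d * (c * (c * ((2 ^ (2 * m)) ^ d * 4 ^ d) *
          ((4 ^ m) ^ d * (∏ i, L i) * (C ^ m) ^ d))) := by gcongr
      _ = 4 ^ d * (c ^ 2) * ((2 ^ (2 * m)) ^ d * 4 ^ d) * (4 ^ m) ^ d * (C ^ m) ^ d *
          ∏ i, L i := by ring
      _ ≤ 4 ^ d * (c ^ 2) ^ d * ((2 ^ (2 * m)) ^ d * 4 ^ d) * (4 ^ m) ^ d * (C ^ m) ^ d *
          ∏ i, L i := by gcongr
      _ = (4 * c ^ 2 * (2 ^ (2 * m) * 4) * 4 ^ m * C ^ m) ^ d * ∏ i, L i := by
          rw [mul_pow, mul_pow, mul_pow, mul_pow, mul_pow]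
      _ ≤ (C' : ℝ) ^ d * ∏ i, L i := by gcongr
  · intro r n0 e z hz
    have h := hF (r, n0, e, ⟨z, hz⟩)
    simp only [P, mul_ite, mul_zero] at h
    rw [sum_filter_pairs D (fun n => F n * _) n0] at h
    rw [← h]
    simp only [GB, Finset.mul_sum]
    rw [Finset.sum_comm]
    refine Finset.sum_congr rfl fun n1 _ => Finset.sum_congr rfl fun c _ => ?_
    simp only [Matrix.cons_val_one, Matrix.cons_val_fin_one]
    ring

end Pool.Agent.J4H22.GE
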