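import Pool.Agent.J4H27.GE.Defs
import Pool.Agent.J4H52.GC.AuxPol

/-!
# Project GE: Siegel's lemma for systems of polynomial equations
-/

set_option autoImplicit false

open MvPolynomial NumberField

namespace Pool.Agent.J4H22.GE

open Pool.Agent.J4H27.GC Pool.Agent.J4H27.GE Pool.Agent.J4H52.GC

/-- Siegel's lemma for linear equations between unknown polynomials in two variables -/
theorem gen (K : Type) [Field K] [NumberField K] : ∃ c : ℝ, 1 ≤ c ∧
    ∀ (N Q : Type) [Fintype N] [Fintype Q] [Nonempty N] (e E : ℕ)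
      (P : Q → N → MvPolynomial (Fin 2) (𝓞 K)) (Λ : ℝ), 1 ≤ Λ →
      (∀ q n j, (P q n).degreeOf j ≤ E) → (∀ q n, len (P q n) ≤ Λ) →
      2 * (Fintype.card Q * (e + E + 1) ^ 2) ≤ Fintype.card N * (e + 1) ^ 2 →
      ∃ F : N → MvPolynomial (Fin 2) (𝓞 K), F ≠ 0 ∧ (∀ n j, (F n).degreeOf j ≤ e) ∧
        (∀ n, len (F n) ≤
          ((e : ℝ) + 1) ^ 2 * (c * (c * ((Fintype.card N : ℝ) * ((e : ℝ) + 1) ^ 2) * Λ))) ∧
        ∀ q, ∑ n, F n * P q n = 0 := by
  classical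
  obtain ⟨c, hc, hS⟩ := siegel2 K
  refine ⟨c, hc, ?_⟩
  intro N Q _ _ _ e E P Λ hΛ hdeg hlen hcard
  let A : Q × (Fin 2 → Fin (e + E + 1)) → N × (Fin 2 → Fin (e + 1)) → 𝓞 K := fun t l =>
    coeff (ex t.2) (monomial (ex l.2) 1 * P t.1 l.1)
  have hA : ∀ t l, hs (A t l) ≤ Λ := by
    intro t l
    refine (hs_le_len _ _).trans ((len_mul _ _).trans ?_)
    rw [len_monomial, hs_one, one_mul]
    exact hlen _ _
  have hβ : 0 < Fintype.card (N × (Fin 2 → Fin (e + 1))) := Fintype.card_pos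
  have hcβ : Fintype.card (N × (Fin 2 → Fin (e + 1))) = Fintype.card N * (e + 1) ^ 2 := by
    simp
  have hcα : Fintype.card (Q × (Fin 2 → Fin (e + E + 1))) = Fintype.card Q * (e + E + 1) ^ 2 := by
    simp
  obtain ⟨ξ, ⟨l₀, hl₀⟩, hξ, hξB⟩ := hS _ _ A hβ (by rw [hcβ, hcα]; exact hcard) Λ hΛ hA
  refine ⟨Fp ξ, ?_, degreeOf_Fp ξ, ?_, ?_⟩
  · intro h0
    apply hl₀
    have h1 := coeff_Fp ξ l₀.1 l₀.2
    rw [h0] at h1
    simpa using h1.symm
  · intro n
    refine (len_Fp ξ n _ hξB).trans (le_of_eq ?_)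
    rw [hcβ]
    push_cast
    ring
  · intro q
    have h := sum_eq_zero_of (E := E) ξ (P q) (fun _ => True) (hdeg q) (by
      intro cc
      simp only [if_true]
      exact hξ (q, cc))
    simpa only [if_true] using h

/-- pairs of exponent vectors -/
def eqN {m : ℕ} (D : Fin m → ℕ) : NN D ≃ N1 D × N1 D where
  toFun n := (fun i => n i 0, fun i => n i 1)
  invFun p := fun i => ![p.1 i, p.2 i]
  left_inv n := by
    funext i j
    fin_cases j <;> rfl
  right_inv p := rfl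

theorem sum_pairs {m : ℕ} (D : Fin m → ℕ) {M : Type} [AddCommMonoid M] (f : NN D → M) :
    ∑ n : NN D, f n = ∑ n0 : N1 D, ∑ n1 : N1 D, f (fun i => ![n0 i, n1 i]) := by
  rw [← Fintype.sum_prod_type' (f := fun n0 n1 : N1 D => f (fun i => ![n0 i, n1 i])),
    ← (eqN D).symm.sum_comp]
  rfl

theorem sum_filter_pairs {m : ℕ} (D : Fin m → ℕ) {M : Type} [AddCommMonoid M] (f : NN D → M)
    (n0 : N1 D) [DecidableEq (N1 D)] :
    ∑ n : NN D, (if (fun i => n i 0) = n0 then f n else 0) =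
      ∑ n1 : N1 D, f (fun i => ![n0 i, n1 i]) := by
  rw [sum_pairs, Finset.sum_eq_single n0]
  · refine Finset.sum_congr rfl fun n1 _ => ?_
    rw [if_pos]
    rfl
  · intro n0' _ h
    refine Finset.sum_eq_zero fun n1 _ => ?_
    rw [if_neg]
    exact h
  · intro h
    exact absurd (Finset.mem_univ _) h

theorem card_NN {m : ℕ} (D : Fin m → ℕ) : Fintype.card (NN D) = (∏ i, (D i + 1)) ^ 2 := by
  rw [← Finset.prod_pow]
  simp [NN, Fintype.card_pi]

theorem card_N1 {m : ℕ} (D : Fin m → ℕ) : Fintype.card (N1 D) = ∏ i, (D i + 1) := by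
  simp [N1, Fintype.card_pi]

theorem D_le {m : ℕ} {D k : Fin m → ℕ} {d : ℕ} (hk : ∀ i, D i * 4 ^ k i = d) (i : Fin m) :
    D i ≤ d := by
  calc D i = D i * 1 := (mul_one _).symm
    _ ≤ D i * 4 ^ k i := Nat.mul_le_mul_left _ (Nat.one_le_pow _ _ (by norm_num))
    _ = d := hk i

theorem succ_le_two_pow {x d : ℕ} (h : x ≤ d) : ((x : ℝ) + 1) ≤ 2 ^ d := by
  have h1 : x + 1 ≤ 2 ^ d := by
    have := Nat.lt_two_pow_self (n := d)
    omega
  exact_mod_cast h1

theorem prod_succ_le {m : ℕ} {D k : Fin m → ℕ} {d : ℕ} (hk : ∀ i, D i * 4 ^ k i = d) :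
    ((∏ i, (D i + 1) : ℕ) : ℝ) ≤ (2 ^ m) ^ d := by
  push_cast
  calc (∏ i, ((D i : ℝ) + 1)) ≤ ∏ _i : Fin m, (2 : ℝ) ^ d :=
        Finset.prod_le_prod (fun i _ => by positivity) fun i _ => succ_le_two_pow (D_le hk i)
    _ = (2 ^ m) ^ d := by
        rw [Finset.prod_const, Finset.card_univ, Fintype.card_fin, ← pow_mul, ← pow_mul, mul_comm]

end Pool.Agent.J4H22.GE
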